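import Pool.Agent.V1172.GVol

/-!
Integrals for the volume of the graph of a map of the bidisc into the Hopf surface
`(ℂ² ∖ 0)/(v ~ 2v)`.
-/

set_option autoImplicit false

open Set Filter Topology MeasureTheory Metric Pool.Agent.V1172.Radial Pool.Agent.V1172.GVol

open scoped ENNReal

namespace Pool.Agent.H47.HopfInt

/-- a disc -/
def Disc (T : ℝ) : Set ℂ := {w | ‖w‖ < T}

theorem measurableSet_Disc (T : ℝ) : MeasurableSet (Disc T) :=
  measurableSet_lt measurable_norm measurable_const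

theorem integral_Disc {T : ℝ} (hT : 0 < T) (g G : ℝ → ℝ)
    (hg : ContinuousOn g (Icc 0 T))
    (hG : ∀ ρ ∈ Icc 0 T, HasDerivAt G (ρ * g ρ) ρ) :
    ∫ w in Disc T, g ‖w‖ = 2 * Real.pi * (G T - G 0) := by
  have h1 : ∫ w in Disc T, g ‖w‖ = ∫ w : ℂ, (indicator (Ico 0 T) g) ‖w‖ := by
    rw [← integral_indicator (measurableSet_Disc T)]
    refine integral_congr_ae (Eventually.of_forall fun w => ?_)
    by_cases hw : w ∈ Disc T
    · have hw' : ‖w‖ ∈ Ico 0 T := ⟨norm_nonneg _, hw⟩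
      simp only [indicator_of_mem hw, indicator_of_mem hw']
    · have hw' : ‖w‖ ∉ Ico 0 T := fun h => hw h.2
      simp only [indicator_of_notMem hw, indicator_of_notMem hw']
  rw [h1, integral_fun_norm_addHaar volume (indicator (Ico 0 T) g)]
  have h2 : ∫ y in Ioi (0 : ℝ), y ^ (Module.finrank ℝ ℂ - 1) • indicator (Ico 0 T) g y =
      ∫ y in (0:ℝ)..T, y * g y := by
    rw [Complex.finrank_real_complex]
    have h3 : ∀ y : ℝ, y ^ (2 - 1) • indicator (Ico 0 T) g y =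
        indicator (Ico 0 T) (fun y => y * g y) y := by
      intro y
      by_cases hy : y ∈ Ico 0 T
      · simp [indicator_of_mem hy]
      · simp [indicator_of_notMem hy]
    simp only [h3]
    rw [setIntegral_indicator measurableSet_Ico]
    rw [intervalIntegral.integral_of_le hT.le]
    refine setIntegral_congr_set ?_
    have h7 : (Ioi (0 : ℝ) ∩ Ico 0 T : Set ℝ) = Ioo 0 T := by
      ext y
      constructor
      · exact fun h => ⟨h.1, h.2.2⟩
      · exact fun h => ⟨h.1, h.1.le, h.2⟩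
    rw [h7]
    exact Ioo_ae_eq_Ioc
  rw [h2]
  have h8 : ∫ y in (0:ℝ)..T, y * g y = G T - G 0 := by
    refine intervalIntegral.integral_eq_sub_of_hasDerivAt ?_ ?_
    · intro y hy
      rw [uIcc_of_le hT.le] at hy
      exact hG y hy
    · refine ContinuousOn.intervalIntegrable ?_
      rw [uIcc_of_le hT.le]
      exact continuousOn_id.mul hg
  rw [h8]
  have h9 : (volume : Measure ℂ).real (ball 0 1) = Real.pi := by
    rw [Measure.real, Complex.volume_ball]
    simp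
  rw [h9, Complex.finrank_real_complex]
  simp only [nsmul_eq_mul, smul_eq_mul]
  push_cast
  ring

theorem integrableOn_Disc {T : ℝ} (g : ℝ → ℝ) (hg : ContinuousOn g (Icc 0 T)) :
    IntegrableOn (fun w : ℂ => g ‖w‖) (Disc T) := by
  have hK : IsCompact {w : ℂ | 0 ≤ ‖w‖ ∧ ‖w‖ ≤ T} := by
    refine (isCompact_closedBall (0 : ℂ) T).of_isClosed_subset ?_ ?_
    · exact (isClosed_le continuous_const continuous_norm).inter
        (isClosed_le continuous_norm continuous_const)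
    · intro w hw
      rw [mem_closedBall_zero_iff]; exact hw.2
  have h1 : ContinuousOn (fun w : ℂ => g ‖w‖) {w : ℂ | 0 ≤ ‖w‖ ∧ ‖w‖ ≤ T} :=
    hg.comp continuous_norm.continuousOn fun w hw => hw
  exact (h1.integrableOn_compact hK).mono_set fun w hw => ⟨norm_nonneg _, le_of_lt hw⟩

theorem lintegral_Disc {T : ℝ} (hT : 0 < T) (g G : ℝ → ℝ)
    (hg : ContinuousOn g (Icc 0 T)) (hg0 : ∀ ρ ∈ Icc 0 T, 0 ≤ g ρ)
    (hG : ∀ ρ ∈ Icc 0 T, HasDerivAt G (ρ * g ρ) ρ) :
    ∫⁻ w in Disc T, ENNReal.ofReal (g ‖w‖) = ENNReal.ofReal (2 * Real.pi * (G T - G 0)) := by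
  rw [← integral_Disc hT g G hg hG]
  rw [ofReal_integral_eq_lintegral_ofReal (integrableOn_Disc g hg)]
  rw [EventuallyLE, ae_restrict_iff' (measurableSet_Disc T)]
  exact Eventually.of_forall fun w hw => hg0 _ ⟨norm_nonneg _, le_of_lt hw⟩

/-- the translation `z ↦ 1 - z` -/
theorem lintegral_shift (F : ℂ → ℝ≥0∞) (hF : Measurable F) :
    ∫⁻ z in Ann 0, F (1 - z) ≤ ∫⁻ y in Disc 2, F y := by
  have hmp : MeasurePreserving (fun z : ℂ => 1 - z) volume volume :=
    volume.measurePreserving_sub_left 1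
  have h2 := hmp.setLIntegral_comp_preimage (measurableSet_Disc 2) hF
  rw [← h2]
  refine lintegral_mono_set ?_
  intro z hz
  show ‖1 - z‖ < 2
  calc ‖1 - z‖ ≤ ‖(1 : ℂ)‖ + ‖z‖ := norm_sub_le _ _
    _ < 1 + 1 := by rw [norm_one]; linarith [hz.2]
    _ = 2 := by norm_num

theorem int_inv_sq (ε : ℝ) (hε : 0 < ε) :
    ∫⁻ y in Disc 2, ENNReal.ofReal (8 / (4 * ε ^ 2 + ‖y‖ ^ 2)) =
      ENNReal.ofReal (8 * Real.pi * (Real.log (4 * ε ^ 2 + 4) - Real.log (4 * ε ^ 2))) := by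
  have hpos : ∀ t : ℝ, 0 < 4 * ε ^ 2 + t ^ 2 := fun t => by positivity
  have h1 := lintegral_Disc (T := 2) two_pos (fun t => 8 / (4 * ε ^ 2 + t ^ 2))
    (fun t => 4 * Real.log (4 * ε ^ 2 + t ^ 2)) ?_ ?_ ?_
  · rw [h1]
    congr 1
    norm_num
    ring
  · apply Continuous.continuousOn
    exact Continuous.div continuous_const (by fun_prop) fun t => (hpos t).ne'
  · intro t _
    have := hpos t
    positivity
  · intro t _
    have h2 : HasDerivAt (fun t : ℝ => 4 * ε ^ 2 + t ^ 2) (2 * t) t := by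
      have := (hasDerivAt_pow 2 t).const_add (4 * ε ^ 2)
      simpa using this
    have h3 := (h2.log (hpos t).ne').const_mul 4
    refine h3.congr_deriv ?_
    have := (hpos t).ne'
    field_simp
    ring

theorem int_inv (ε : ℝ) (hε : 0 < ε) :
    ∫⁻ y in Disc 2, ENNReal.ofReal (4 / (2 * ε + ‖y‖)) ≤
      ENNReal.ofReal (16 * Real.pi) := by
  have hpos : ∀ t ∈ Icc (0 : ℝ) 2, 0 < 2 * ε + t := fun t ht => by linarith [ht.1]
  have h1 := lintegral_Disc (T := 2) two_pos (fun t => 4 / (2 * ε + t))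
    (fun t => 4 * t - 8 * ε * Real.log (2 * ε + t)) ?_ ?_ ?_
  · rw [h1]
    apply ENNReal.ofReal_le_ofReal
    have hlog : Real.log (2 * ε + 0) ≤ Real.log (2 * ε + 2) :=
      Real.log_le_log (by linarith) (by linarith)
    have h3 : 0 ≤ 8 * ε * (Real.log (2 * ε + 2) - Real.log (2 * ε + 0)) :=
      mul_nonneg (by positivity) (by linarith)
    have hpi := Real.pi_pos
    nlinarith
  · exact ContinuousOn.div continuousOn_const (by fun_prop) fun t ht => (hpos t ht).ne'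
  · intro t ht
    have := hpos t ht
    positivity
  · intro t ht
    have h2 : HasDerivAt (fun t : ℝ => 2 * ε + t) 1 t := (hasDerivAt_id t).const_add _
    have h3 := (h2.log (hpos t ht).ne').const_mul (8 * ε)
    have h4 : HasDerivAt (fun t : ℝ => 4 * t) 4 t := by
      have := (hasDerivAt_id t).const_mul 4
      simpa using this
    refine (h4.sub h3).congr_deriv ?_
    have h5 := (hpos t ht).ne'
    show 4 - 8 * ε * (1 / (2 * ε + t)) = t * (4 / (2 * ε + t))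
    have h6 : (2 * ε + t) * (1 / (2 * ε + t)) = 1 := mul_one_div_cancel h5
    have h7 : 4 / (2 * ε + t) = 4 * (1 / (2 * ε + t)) := by ring
    rw [h7]
    linear_combination (-4) * h6

/-- lower bounds for `|1 - ρ z|` -/
theorem norm_lower {ε : ℝ} (hε0 : 0 < ε) (hε1 : ε < 1) {z : ℂ} (hz : ‖z‖ < 1) :
    ε ≤ ‖1 - ((1 - ε : ℝ) : ℂ) * z‖ ∧ ‖1 - z‖ ≤ 2 * ‖1 - ((1 - ε : ℝ) : ℂ) * z‖ := by
  have h1 : ‖((1 - ε : ℝ) : ℂ) * z‖ ≤ 1 - ε := by
    rw [norm_mul, Complex.norm_real, Real.norm_eq_abs, abs_of_pos (by linarith)]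
    nlinarith [norm_nonneg z]
  have h2 : ε ≤ ‖1 - ((1 - ε : ℝ) : ℂ) * z‖ := by
    have := norm_sub_norm_le (1 : ℂ) (((1 - ε : ℝ) : ℂ) * z)
    rw [norm_one] at this
    linarith
  refine ⟨h2, ?_⟩
  have h3 : (1 : ℂ) - z = (1 - ((1 - ε : ℝ) : ℂ) * z) - (ε : ℂ) * z := by
    push_cast; ring
  have h4 : ‖(ε : ℂ) * z‖ ≤ ε := by
    rw [norm_mul, Complex.norm_real, Real.norm_eq_abs, abs_of_pos hε0]
    nlinarith [norm_nonneg z]
  calc ‖1 - z‖ = ‖(1 - ((1 - ε : ℝ) : ℂ) * z) - (ε : ℂ) * z‖ := by rw [h3]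
    _ ≤ ‖1 - ((1 - ε : ℝ) : ℂ) * z‖ + ‖(ε : ℂ) * z‖ := norm_sub_le _ _
    _ ≤ 2 * ‖1 - ((1 - ε : ℝ) : ℂ) * z‖ := by linarith

/-- `∫_{|z|<1} |1 - ρ z|⁻²` -/
theorem int_u_sq {ε : ℝ} (hε0 : 0 < ε) (hε1 : ε < 1) :
    ∫⁻ z in Ann 0, ENNReal.ofReal (1 / ‖1 - ((1 - ε : ℝ) : ℂ) * z‖ ^ 2) ≤
      ENNReal.ofReal (8 * Real.pi * (Real.log (4 * ε ^ 2 + 4) - Real.log (4 * ε ^ 2))) := by
  rw [← int_inv_sq ε hε0]
  refine le_trans ?_ (lintegral_shift (fun y => ENNReal.ofReal (8 / (4 * ε ^ 2 + ‖y‖ ^ 2))) ?_)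
  · refine setLIntegral_mono' (measurableSet_Ann 0) fun z hz => ?_
    apply ENNReal.ofReal_le_ofReal
    obtain ⟨h1, h2⟩ := norm_lower hε0 hε1 hz.2
    have h3 : 0 < ‖1 - ((1 - ε : ℝ) : ℂ) * z‖ := hε0.trans_le h1
    rw [div_le_div_iff₀ (by positivity) (by positivity)]
    have h4 : ε ^ 2 ≤ ‖1 - ((1 - ε : ℝ) : ℂ) * z‖ ^ 2 := pow_le_pow_left₀ hε0.le h1 2
    have h5 : ‖1 - z‖ ^ 2 ≤ (2 * ‖1 - ((1 - ε : ℝ) : ℂ) * z‖) ^ 2 :=
      pow_le_pow_left₀ (norm_nonneg _) h2 2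
    nlinarith
  · have : Continuous fun y : ℂ => 8 / (4 * ε ^ 2 + ‖y‖ ^ 2) :=
      Continuous.div continuous_const (by fun_prop) fun t => by positivity
    exact this.measurable.ennreal_ofReal

/-- `∫_{|z|<1} |1 - ρ z|⁻¹` -/
theorem int_u {ε : ℝ} (hε0 : 0 < ε) (hε1 : ε < 1) :
    ∫⁻ z in Ann 0, ENNReal.ofReal (1 / ‖1 - ((1 - ε : ℝ) : ℂ) * z‖) ≤
      ENNReal.ofReal (16 * Real.pi) := by
  refine le_trans ?_ (int_inv ε hε0)
  refine le_trans ?_ (lintegral_shift (fun y => ENNReal.ofReal (4 / (2 * ε + ‖y‖))) ?_)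
  · refine setLIntegral_mono' (measurableSet_Ann 0) fun z hz => ?_
    apply ENNReal.ofReal_le_ofReal
    obtain ⟨h1, h2⟩ := norm_lower hε0 hε1 hz.2
    have h3 : 0 < ‖1 - ((1 - ε : ℝ) : ℂ) * z‖ := hε0.trans_le h1
    rw [div_le_div_iff₀ (by positivity) (by positivity)]
    linarith
  · have : Continuous fun y : ℂ => 4 / (2 * ε + ‖y‖) :=
      Continuous.div continuous_const (by fun_prop) fun t => by positivity
    exact this.measurable.ennreal_ofReal

/-- the integral over a slice -/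
theorem slice_integral (b p : ℝ) (hb : 0 < b) (hp : 0 ≤ p) :
    ∫⁻ w in Ann 0, ENNReal.ofReal ((1 + 1 / (‖w‖ ^ 2 + b)) * (1 + p / (‖w‖ ^ 2 + b))) =
      ENNReal.ofReal (Real.pi * (1 + (1 + p) * (Real.log (1 + b) - Real.log b) +
        p * (1 / b - 1 / (1 + b)))) := by
  have hpos : ∀ t : ℝ, 0 < t ^ 2 + b := fun t => by positivity
  have h1 := lintegral_Ann (s := 0) le_rfl one_pos
    (fun t => (1 + 1 / (t ^ 2 + b)) * (1 + p / (t ^ 2 + b)))
    (fun t => t ^ 2 / 2 + (1 + p) / 2 * Real.log (t ^ 2 + b) - p / 2 * (t ^ 2 + b)⁻¹) ?_ ?_ ?_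
  · rw [h1]
    congr 1
    have e1 : (1 : ℝ) ^ 2 + b = 1 + b := by ring
    have e2 : (0 : ℝ) ^ 2 + b = b := by ring
    rw [e1, e2]
    field_simp
    ring
  · apply Continuous.continuousOn
    exact (continuous_const.add (Continuous.div continuous_const (by fun_prop)
      fun t => (hpos t).ne')).mul (continuous_const.add (Continuous.div continuous_const
        (by fun_prop) fun t => (hpos t).ne'))
  · intro t _
    have := hpos t
    positivity
  · intro t _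
    have h2 : HasDerivAt (fun t : ℝ => t ^ 2 + b) (2 * t) t := by
      have := (hasDerivAt_pow 2 t).add_const b
      simpa using this
    have h3 := (h2.log (hpos t).ne').const_mul ((1 + p) / 2)
    have h4 := (h2.inv (hpos t).ne').const_mul (p / 2)
    have h5 : HasDerivAt (fun t : ℝ => t ^ 2 / 2) t t := by
      have := (hasDerivAt_pow 2 t).div_const 2
      simpa using this
    refine ((h5.add h3).sub h4).congr_deriv ?_
    have := (hpos t).ne'
    field_simp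
    ring

theorem slice_integral_le (b p : ℝ) (hb : 0 < b) (hp : 0 ≤ p) :
    ∫⁻ w in Ann 0, ENNReal.ofReal ((1 + 1 / (‖w‖ ^ 2 + b)) * (1 + p / (‖w‖ ^ 2 + b))) ≤
      ENNReal.ofReal (Real.pi * (1 + 1 / b + 2 * (p / b))) := by
  rw [slice_integral b p hb hp]
  apply ENNReal.ofReal_le_ofReal
  refine mul_le_mul_of_nonneg_left ?_ Real.pi_pos.le
  have h1 : Real.log (1 + b) - Real.log b ≤ 1 / b := by
    rw [← Real.log_div (by positivity) hb.ne']
    have h2 := Real.log_le_sub_one_of_pos (show 0 < (1 + b) / b by positivity)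
    have h3 : (1 + b) / b - 1 = 1 / b := by field_simp; ring
    linarith
  have h4 : 0 ≤ 1 / (1 + b) := by positivity
  have h5 : (1 + p) * (Real.log (1 + b) - Real.log b) ≤ (1 + p) * (1 / b) :=
    mul_le_mul_of_nonneg_left h1 (by linarith)
  have h6 : p * (1 / b - 1 / (1 + b)) ≤ p * (1 / b) :=
    mul_le_mul_of_nonneg_left (by linarith) hp
  have h7 : p / b = p * (1 / b) := by ring
  rw [h7]
  nlinarith

end Pool.Agent.H47.HopfInt
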