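import Pool.Agent.H821R3.ES.K8Com

/-!
# Task K8b: angle sums with one facet through the base edge
-/

set_option autoImplicit false
set_option maxHeartbeats 4000000

open MeasureTheory Finset
open scoped Classical

namespace Pool.Agent.H47.K8b

open Pool.Agent.H821R3.ES

open Pool.Agent.H242R3.ES

theorem Bsum {κ : Type} [Fintype κ] (al : κ → ℝ) (N : κ → LV 3) (y : LV 3) :
    B (∑ F, al F • N F) y = ∑ F, al F * B (N F) y := by
  rw [← Bl_apply, map_sum, LinearMap.sum_apply]
  exact Finset.sum_congr rfl fun F _ => by rw [Bl_apply, Bml]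

theorem arccos_half (a b : ℝ) (ha : 0 < a) (hb : 0 < b) :
    Real.arccos ((b ^ 2 - a ^ 2) / (a ^ 2 + b ^ 2)) = 2 * Real.arctan (a / b) := by
  have h1 : Real.cos (2 * Real.arctan (a / b)) = (b ^ 2 - a ^ 2) / (a ^ 2 + b ^ 2) := by
    rw [Real.cos_two_mul, Real.cos_sq_arctan]
    have : a ^ 2 + b ^ 2 ≠ 0 := by positivity
    field_simp
    ring
  rw [← h1, Real.arccos_cos]
  · have := Real.arctan_pos.2 (div_pos ha hb)
    linarith
  · have := Real.arctan_lt_pi_div_two (a / b)
    linarith

theorem main_k8b : TaskK8b := by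
  intro hTL hPhi hK7 ι κ ε _ _ _ V N X h v o hvo hF0
  obtain ⟨F0, hF0v, hF0o⟩ := hF0
  have hpi := Real.pi_pos
  obtain ⟨a, ha⟩ : ∃ a, a = -B (V v) (X o) := ⟨_, rfl⟩
  have ha0 : 0 < a := by
    have := h.vx v o
    rw [ha]
    exact neg_pos.2 (lt_of_le_of_ne this hvo)
  have hvv := h.nV v
  have hoo := h.nX o
  have hvo' : B (V v) (X o) = -a := by rw [ha]; ring
  have hov' : B (X o) (V v) = -a := by rw [B_comm]; exact hvo'
  obtain ⟨Q, hQ⟩ : ∃ Q : LV 3, Q = X o + a • V v := ⟨_, rfl⟩
  have hvQ : B (V v) Q = 0 := by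
    rw [hQ, Bar, Bmr, hvv, hvo']; ring
  have hQQ : B Q Q = -a ^ 2 := by
    rw [hQ]
    simp only [Bar, Bal, Bmr, Bml, hoo, hvo', hov', hvv]
    ring
  have hBQ : ∀ x, B x Q = B x (X o) + a * B x (V v) := by
    intro x
    rw [hQ, Bar, Bmr]
  obtain ⟨π, hπ, hπs⟩ := proj (V v) Q a ha0 hvv hvQ hQQ
  have hg : ∀ e, B (V v) (X e) = 0 → 0 < -B (X e) (X o) := by
    intro e he
    have h1 : e ≠ o := by
      rintro rfl
      exact hvo he
    have := h.xx e o h1
    linarith
  obtain ⟨uu, huu⟩ : ∃ uu : ε → EuclideanSpace ℝ (Fin 2),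
      ∀ e, uu e = (a / (-B (X e) (X o))) • π (X e) := ⟨fun e => _, fun e => rfl⟩
  -- products
  have hxe : ∀ x e, B x (V v) = 0 → B (V v) (X e) = 0 →
      inner ℝ (π x) (uu e) = a / (-B (X e) (X o)) * B x (X e) - B x Q / a := by
    intro x e hx he
    have hge := hg e he
    have he' : B (X e) (V v) = 0 := by rw [B_comm]; exact he
    rw [huu, inner_smul_right, hπ, hx, he', hBQ (X e), he']
    have : B (X e) (X o) ≠ 0 := by linarith
    field_simp
    ring
  have hee : ∀ e f, B (V v) (X e) = 0 → B (V v) (X f) = 0 →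
      inner ℝ (uu e) (uu f) = 1 + a ^ 2 * B (X e) (X f) / (B (X e) (X o) * B (X f) (X o)) := by
    intro e f he hf
    have hge := hg e he
    have hgf := hg f hf
    have he' : B (X e) (V v) = 0 := by rw [B_comm]; exact he
    rw [huu e, inner_smul_left, hxe _ _ he' hf, hBQ, he']
    have h1 : B (X e) (X o) ≠ 0 := by linarith
    have h2 : B (X f) (X o) ≠ 0 := by linarith
    simp only [conj_trivial]
    field_simp
    ring
  have hee1 : ∀ e, B (V v) (X e) = 0 → inner ℝ (uu e) (uu e) = (1 : ℝ) := by
    intro e he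
    rw [hee e e he he, h.nX]
    simp
  have heelt : ∀ e f, B (V v) (X e) = 0 → B (V v) (X f) = 0 → e ≠ f →
      inner ℝ (uu e) (uu f) < (1 : ℝ) := by
    intro e f he hf hef
    rw [hee e f he hf]
    have h1 := h.xx e f hef
    have h2 : 0 < B (X e) (X o) * B (X f) (X o) := by
      have := mul_pos (hg e he) (hg f hf)
      linarith
    have h3 : a ^ 2 * B (X e) (X f) / (B (X e) (X o) * B (X f) (X o)) < 0 := by
      apply div_neg_of_neg_of_pos _ h2
      exact mul_neg_of_pos_of_neg (by positivity) h1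
    linarith
  obtain ⟨us, hus⟩ : ∃ us, us = π (N F0) := ⟨_, rfl⟩
  have hN0v : B (N F0) (V v) = 0 := by rw [B_comm]; exact hF0v
  have hN0Q : B (N F0) Q = 0 := by rw [hBQ, hF0o, hN0v]; ring
  have hss : inner ℝ us us = (1 : ℝ) := by
    rw [hus, hπ, h.nN, hN0v, hN0Q]; simp
  have hsu : ∀ e, B (V v) (X e) = 0 →
      inner ℝ us (uu e) = a / (-B (X e) (X o)) * B (N F0) (X e) := by
    intro e he
    rw [hus, hxe _ _ hN0v he, hN0Q]; simp
  have hsule : ∀ e, B (V v) (X e) = 0 → inner ℝ us (uu e) ≤ (0 : ℝ) := by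
    intro e he
    rw [hsu e he]
    exact mul_nonpos_of_nonneg_of_nonpos (div_pos ha0 (hg e he)).le (h.nx F0 e)
  -- edges of facets
  have : Nonempty ε := ⟨o⟩
  choose! eF fF hef using fun F (hF : B (V v) (N F) = 0) => h.fl v F hF
  have heF : ∀ F, B (V v) (N F) = 0 → B (V v) (X (eF F)) = 0 ∧ B (N F) (X (eF F)) = 0 :=
    fun F hF => ((hef F hF).2 _).2 (Or.inl rfl)
  have hfF : ∀ F, B (V v) (N F) = 0 → B (V v) (X (fF F)) = 0 ∧ B (N F) (X (fF F)) = 0 :=
    fun F hF => ((hef F hF).2 _).2 (Or.inr rfl)
  have hc : ∀ F, B (V v) (N F) = 0 → inner ℝ (uu (eF F)) (uu (fF F)) =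
      (B (N F) (X o) ^ 2 - a ^ 2) / (a ^ 2 + B (N F) (X o) ^ 2) := by
    intro F hF
    have h1 := heF F hF
    have h2 := hfF F hF
    have h3 := h.xx _ _ (hef F hF).1
    have h4 := hK7 (V v) (N F) (X (eF F)) (X (fF F)) (X o) hvv (h.nN F) hF h1.1 h2.1 h1.2 h2.2
      (h.nX _) (h.nX _) h3.ne
    rw [hoo, hvo', zero_mul] at h4
    rw [hee _ _ h1.1 h2.1]
    have h5 := hg _ h1.1
    have h6 := hg _ h2.1
    have h7 : B (X (eF F)) (X o) ≠ 0 := by linarith
    have h8 : B (X (fF F)) (X o) ≠ 0 := by linarith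
    have h9 : a ^ 2 + B (N F) (X o) ^ 2 ≠ 0 := by positivity
    field_simp
    linear_combination (-a ^ 2) * h4
  -- two facets at an edge
  have hpair : ∀ F G e, F ≠ G → B (N F) (X e) = 0 → B (N G) (X e) = 0 →
      ∃ c : ℝ, 0 < c ∧ N F + N G = c • X e := by
    intro F G e hFG hFe hGe
    obtain ⟨i, j, hij, hk, c, hc, hcc⟩ := h.sN e
    rcases (hk F).1 hFe with rfl | rfl <;> rcases (hk G).1 hGe with rfl | rfl
    · exact absurd rfl hFG
    · exact ⟨c, hc, hcc⟩
    · exact ⟨c, hc, by rw [add_comm]; exact hcc⟩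
    · exact absurd rfl hFG
  have hb : ∀ F, B (V v) (N F) = 0 → F ≠ F0 → 0 < -B (N F) (X o) := by
    intro F hF hne
    rcases (h.nx F o).lt_or_eq with h1 | h1
    · linarith
    · exfalso
      obtain ⟨c, hc, hcc⟩ := hpair F F0 o hne h1 hF0o
      have h2 : B (V v) (N F + N F0) = B (V v) (c • X o) := by rw [hcc]
      rw [Bar, Bmr, hF, hF0v, hvo'] at h2
      have := mul_pos hc ha0
      linarith
  -- the normal of a facet
  have hn : ∀ F, B (V v) (N F) = 0 → F ≠ F0 → ∃ n : EuclideanSpace ℝ (Fin 2),
      inner ℝ n us ≤ (0 : ℝ) ∧ ∀ e, B (V v) (X e) = 0 → (inner ℝ n (uu e) ≤ (1 : ℝ) ∧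
        (inner ℝ n (uu e) = (1 : ℝ) ↔ B (N F) (X e) = 0)) := by
    intro F hF hne
    have hb0 := hb F hF hne
    obtain ⟨b, hbb⟩ : ∃ b, b = -B (N F) (X o) := ⟨_, rfl⟩
    have hb1 : B (N F) (X o) = -b := by rw [hbb]; ring
    rw [← hbb] at hb0
    have hNv : B (N F) (V v) = 0 := by rw [B_comm]; exact hF
    have hNQ : B (N F) Q = -b := by rw [hBQ, hNv, hb1]; ring
    have hne' : ∀ e, B (V v) (X e) = 0 →
        inner ℝ ((a / b) • π (N F)) (uu e) = 1 + a ^ 2 / (b * -B (X e) (X o)) * B (N F) (X e) := by
      intro e he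
      rw [inner_smul_left, hxe _ _ hNv he, hNQ]
      have h1 := hg e he
      have h2 : B (X e) (X o) ≠ 0 := by linarith
      simp only [conj_trivial]
      field_simp
      ring
    have h1 := heF F hF
    have h2 := hfF F hF
    have hcF := hc F hF
    rw [hb1] at hcF
    have h3 : inner ℝ ((a / b) • π (N F)) (uu (eF F)) = (1 : ℝ) := by
      rw [hne' _ h1.1, h1.2]; ring
    have h4 : inner ℝ ((a / b) • π (N F)) (uu (fF F)) = (1 : ℝ) := by
      rw [hne' _ h2.1, h2.2]; ring
    have h5 : inner ℝ ((a / b) • π (N F)) ((a / b) • π (N F)) = (a ^ 2 + b ^ 2) / b ^ 2 := by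
      rw [inner_smul_left, inner_smul_right, hπ, h.nN, hNv, hNQ]
      simp only [conj_trivial]
      field_simp
      ring
    have hcomm : inner ℝ (uu (fF F)) (uu (eF F)) = inner ℝ (uu (eF F)) (uu (fF F)) :=
      real_inner_comm _ _
    have hcomm2 : inner ℝ (uu (eF F)) ((a / b) • π (N F)) = (1 : ℝ) := by
      rw [real_inner_comm]; exact h3
    have hcomm3 : inner ℝ (uu (fF F)) ((a / b) • π (N F)) = (1 : ℝ) := by
      rw [real_inner_comm]; exact h4
    have h6 : (a / b) • π (N F) = ((a ^ 2 + b ^ 2) / (2 * b ^ 2)) • (uu (eF F) + uu (fF F)) := by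
      rw [← sub_eq_zero, ← inner_self_eq_zero (𝕜 := ℝ)]
      have hself1 := hee1 _ h1.1
      have hself2 := hee1 _ h2.1
      generalize (a / b) • π (N F) = w at h3 h4 h5 hcomm2 hcomm3 ⊢
      simp only [inner_sub_left, inner_sub_right, inner_smul_left, inner_smul_right,
        inner_add_left, inner_add_right, conj_trivial]
      rw [hself1, hself2, hcomm, hcF, h3, h4, h5, hcomm2, hcomm3]
      have h7 : a ^ 2 + b ^ 2 ≠ 0 := by positivity
      have h8 : b ≠ 0 := hb0.ne'
      have h9 : a ^ 2 + (-b) ^ 2 ≠ 0 := by positivity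
      field_simp
      ring
    refine ⟨(a / b) • π (N F), ?_, ?_⟩
    · rw [h6, inner_smul_left, inner_add_left, real_inner_comm, real_inner_comm us (uu (fF F))]
      simp only [conj_trivial]
      have h7 := hsule _ h1.1
      have h8 := hsule _ h2.1
      apply mul_nonpos_of_nonneg_of_nonpos (by positivity)
      linarith
    · intro e he
      rw [hne' e he]
      have h7 : 0 < a ^ 2 / (b * -B (X e) (X o)) :=
        div_pos (by positivity) (mul_pos hb0 (hg e he))
      have h8 := h.nx F e
      refine ⟨?_, ?_⟩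
      · have := mul_nonpos_of_nonneg_of_nonpos h7.le h8
        linarith
      · constructor
        · intro h9
          have h10 : a ^ 2 / (b * -B (X e) (X o)) * B (N F) (X e) = 0 := by linarith
          exact (mul_eq_zero.1 h10).resolve_left h7.ne'
        · intro h9
          rw [h9]; ring
  -- the polygon
  let k : ε → Option {e : ε // B (V v) (X e) = 0} := fun e =>
    if h : B (V v) (X e) = 0 then some ⟨e, h⟩ else none
  have hk : ∀ e (he : B (V v) (X e) = 0), k e = some ⟨e, he⟩ := fun e he => dif_pos he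
  let u : Option {e : ε // B (V v) (X e) = 0} → EuclideanSpace ℝ (Fin 2) := fun x =>
    Option.elim x us (fun e => uu e)
  have hu0 : u none = us := rfl
  have hu1 : ∀ e (he : B (V v) (X e) = 0), u (some ⟨e, he⟩) = uu e := fun e he => rfl
  have huk : ∀ e (he : B (V v) (X e) = 0), u (k e) = uu e := fun e he => by
    rw [hk e he]
    exact hu1 e he
  have hkn : ∀ e (he : B (V v) (X e) = 0), k e ≠ none := fun e he => by rw [hk e he]; simp
  have hkinj : ∀ e f (he : B (V v) (X e) = 0) (hf : B (V v) (X f) = 0), k e = k f → e = f := by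
    intro e f he hf hkk
    rw [hk e he, hk f hf] at hkk
    simpa using hkk
  have hunit : ∀ x, inner ℝ (u x) (u x) = (1 : ℝ) := by
    intro x
    cases x with
    | none => exact hss
    | some e => exact hee1 e.1 e.2
  let sF : κ → Finset (Option {e : ε // B (V v) (X e) = 0}) := fun F => {k (eF F), k (fF F)}
  let T : Finset κ := Finset.univ.filter (fun F => B (V v) (N F) = 0 ∧ F ≠ F0)
  have hT : ∀ F, F ∈ T ↔ B (V v) (N F) = 0 ∧ F ≠ F0 := fun F => by simp [T]
  have he0 := heF F0 hF0v
  have hf0 := hfF F0 hF0v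
  have hef0 := (hef F0 hF0v).1
  let S : Finset (Finset (Option {e : ε // B (V v) (X e) = 0})) :=
    insert {k (eF F0), none} (insert {k (fF F0), none} (T.image sF))
  have hS : ∀ s, s ∈ S ↔ s = {k (eF F0), none} ∨ s = {k (fF F0), none} ∨ ∃ F ∈ T, sF F = s := by
    intro s
    simp only [S, Finset.mem_insert, Finset.mem_image]
  -- the opposite edges of `F0`
  have hopp : uu (fF F0) = - uu (eF F0) := by
    have h1 := hc F0 hF0v
    rw [hF0o] at h1
    have h2 : inner ℝ (uu (eF F0)) (uu (fF F0)) = (-1 : ℝ) := by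
      rw [h1]
      field_simp
      ring
    have h3 : inner ℝ (uu (fF F0)) (uu (eF F0)) = (-1 : ℝ) := by
      rw [real_inner_comm]; exact h2
    rw [← sub_eq_zero, ← inner_self_eq_zero (𝕜 := ℝ)]
    simp only [inner_sub_left, inner_sub_right, inner_neg_left, inner_neg_right]
    rw [hee1 _ he0.1, hee1 _ hf0.1, h2, h3]
    ring
  have hse0 : inner ℝ us (uu (eF F0)) = (0 : ℝ) := by rw [hsu _ he0.1, he0.2]; ring
  have hsf0 : inner ℝ us (uu (fF F0)) = (0 : ℝ) := by rw [hsu _ hf0.1, hf0.2]; ring
  -- condition 1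
  have c1 : ∀ n : EuclideanSpace ℝ (Fin 2), n ≠ 0 → ∃ x, (0 : ℝ) < inner ℝ n (u x) := by
    intro n hn0
    by_contra hcon
    push Not at hcon
    obtain ⟨x, hxv, hxQ, rfl⟩ := hπs n
    have hxo : B x (X o) = 0 := by
      have := hBQ x
      rw [hxQ, hxv] at this
      linarith
    obtain ⟨al, hal, hal2, hsum⟩ := h.rV v x hxv (fun e he => by
      have h1 := hcon (k e)
      rw [huk e he, hxe x e hxv he, hxQ] at h1
      have h2 : 0 < a / (-B (X e) (X o)) := div_pos ha0 (hg e he)
      by_contra h3
      push Not at h3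
      have := mul_pos h2 h3
      rw [zero_div] at h1
      linarith)
    have h1 : ∑ F, al F * B (N F) (X o) = 0 := by
      rw [← Bsum, ← hsum, hxo]
    have h2 := (Finset.sum_eq_zero_iff_of_nonpos (fun F _ =>
      mul_nonpos_of_nonneg_of_nonpos (hal F) (h.nx F o))).1 h1
    have h3 : ∀ F, F ≠ F0 → al F = 0 := by
      intro F hne
      by_contra h4
      have h5 := hb F (hal2 F h4) hne
      have h6 := h2 F (Finset.mem_univ F)
      rcases mul_eq_zero.1 h6 with h7 | h7
      · exact h4 h7
      · linarith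
    have h4 : x = al F0 • N F0 := by
      rw [hsum]
      refine Finset.sum_eq_single F0 (fun F _ hne => by rw [h3 F hne, zero_smul]) (fun h => ?_)
      exact absurd (Finset.mem_univ _) h
    have h5 : π x = al F0 • us := by rw [h4, map_smul, hus]
    have h6 := hcon none
    rw [hu0, h5, inner_smul_left, hss] at h6
    simp only [conj_trivial] at h6
    have h7 : al F0 = 0 := le_antisymm (by linarith) (hal F0)
    apply hn0
    rw [h5, h7, zero_smul]
  -- condition 2
  have c2 : ∀ s ∈ S, ∃ i j, i ≠ j ∧ s = {i, j} ∧ -1 < inner ℝ (u i) (u j) ∧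
      inner ℝ (u i) (u j) < 1 ∧
      ∃ n : EuclideanSpace ℝ (Fin 2), (∀ x, inner ℝ n (u x) ≤ 1) ∧
        ∀ x, x ∈ s ↔ inner ℝ n (u x) = 1 := by
    have hcorner : ∀ e, B (V v) (X e) = 0 → B (N F0) (X e) = 0 →
        ∃ i j, i ≠ j ∧ ({k e, none} : Finset (Option {e : ε // B (V v) (X e) = 0})) = {i, j} ∧
        -1 < inner ℝ (u i) (u j) ∧ inner ℝ (u i) (u j) < 1 ∧
        ∃ n : EuclideanSpace ℝ (Fin 2), (∀ x, inner ℝ n (u x) ≤ 1) ∧
        ∀ x, x ∈ ({k e, none} : Finset (Option {e : ε // B (V v) (X e) = 0})) ↔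
          inner ℝ n (u x) = 1 := by
      intro e he heN
      have h1 : inner ℝ us (uu e) = (0 : ℝ) := by rw [hsu e he, heN]; ring
      have h2 : inner ℝ (uu e) us = (0 : ℝ) := by rw [real_inner_comm]; exact h1
      refine ⟨k e, none, hkn e he, rfl, ?_, ?_, uu e + us, ?_, ?_⟩
      · rw [huk e he, hu0, h2]; norm_num
      · rw [huk e he, hu0, h2]; norm_num
      · intro x
        cases x with
        | none => rw [hu0, inner_add_left, h2, hss]; norm_num
        | some f =>
          have h3 := hsule f.1 f.2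
          have h4 : inner ℝ (uu e) (uu f.1) ≤ (1 : ℝ) := by
            by_cases hef : e = f.1
            · rw [← hef, hee1 e he]
            · exact (heelt e f.1 he f.2 hef).le
          show inner ℝ (uu e + us) (uu f.1) ≤ (1 : ℝ)
          rw [inner_add_left]
          linarith
      · intro x
        cases x with
        | none =>
          rw [hu0, inner_add_left, h2, hss]
          simp
        | some f =>
          rw [Finset.mem_insert, Finset.mem_singleton, hk e he]
          show _ ↔ inner ℝ (uu e + us) (uu f.1) = (1 : ℝ)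
          rw [inner_add_left]
          constructor
          · intro h3
            rcases h3 with h3 | h3
            · have h4 : f.1 = e := by
                have := Option.some.inj h3
                rw [this]
              rw [h4, hee1 e he, h1]; ring
            · exact absurd h3 (by simp)
          · intro h3
            left
            by_contra h4
            have h5 : e ≠ f.1 := by
              intro h6
              apply h4
              congr 1
              exact Subtype.ext h6.symm
            have h6 := heelt e f.1 he f.2 h5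
            have h7 := hsule f.1 f.2
            linarith
    intro s hs
    rcases (hS s).1 hs with rfl | rfl | ⟨F, hFT, rfl⟩
    · exact hcorner _ he0.1 he0.2
    · exact hcorner _ hf0.1 hf0.2
    · have hF := (hT F).1 hFT
      have h1 := heF F hF.1
      have h2 := hfF F hF.1
      have h3 := (hef F hF.1).1
      have hb0 := hb F hF.1 hF.2
      obtain ⟨n, hn1, hn2⟩ := hn F hF.1 hF.2
      refine ⟨k (eF F), k (fF F), fun h => h3 (hkinj _ _ h1.1 h2.1 h), rfl, ?_, ?_, n, ?_, ?_⟩
      · rw [huk _ h1.1, huk _ h2.1, hc F hF.1]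
        have h4 : 0 < a ^ 2 + B (N F) (X o) ^ 2 := by positivity
        rw [lt_div_iff₀ h4]
        nlinarith [mul_pos hb0 hb0]
      · rw [huk _ h1.1, huk _ h2.1]
        exact heelt _ _ h1.1 h2.1 h3
      · intro x
        cases x with
        | none => rw [hu0]; linarith
        | some f => exact (hn2 f.1 f.2).1
      · intro x
        cases x with
        | none =>
          rw [hu0]
          constructor
          · intro h4
            have h5 : (none : Option {e : ε // B (V v) (X e) = 0}) ∈
              ({k (eF F), k (fF F)} : Finset _) := h4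
            rw [Finset.mem_insert, Finset.mem_singleton] at h5
            rcases h5 with h5 | h5
            · exact absurd h5.symm (hkn _ h1.1)
            · exact absurd h5.symm (hkn _ h2.1)
          · intro h4
            linarith
        | some f =>
          have h4 : (some f ∈ sF F) ↔ (f.1 = eF F ∨ f.1 = fF F) := by
            show some f ∈ ({k (eF F), k (fF F)} : Finset _) ↔ _
            rw [Finset.mem_insert, Finset.mem_singleton, hk _ h1.1, hk _ h2.1,
              Option.some_inj, Option.some_inj, Subtype.ext_iff, Subtype.ext_iff]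
          rw [h4, ← (hef F hF.1).2 f.1]
          show _ ↔ inner ℝ n (uu f.1) = (1 : ℝ)
          rw [(hn2 f.1 f.2).2]
          exact ⟨fun h => h.2, fun h => ⟨f.2, h⟩⟩
  -- condition 3
  have c3 : ∀ n : EuclideanSpace ℝ (Fin 2), (∀ x, inner ℝ n (u x) ≤ 1) →
      (∃ x, inner ℝ n (u x) = 1) → ∃ s ∈ S, ∀ x, inner ℝ n (u x) = 1 → x ∈ s := by
    intro n hn1 _
    by_cases hstar : inner ℝ n us = (1 : ℝ)
    · -- the corner
      have h1 : inner ℝ (uu (eF F0)) us = (0 : ℝ) := by rw [real_inner_comm]; exact hse0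
      have hν1 : inner ℝ n (uu (eF F0)) ≤ (1 : ℝ) := by
        have := hn1 (k (eF F0))
        rwa [huk _ he0.1] at this
      have hν2 : -inner ℝ n (uu (eF F0)) ≤ (1 : ℝ) := by
        have := hn1 (k (fF F0))
        rwa [huk _ hf0.1, hopp, inner_neg_right] at this
      have hother : ∀ e, B (V v) (X e) = 0 → e ≠ eF F0 → e ≠ fF F0 →
          inner ℝ n (uu e) ≠ (1 : ℝ) := by
        intro e he h2 h3 h4
        have h5 := two us (uu (eF F0)) n (uu e) hss (hee1 _ he0.1) hse0
        rw [h4, hstar] at h5
        have h6 : inner ℝ (uu e) us ≤ (0 : ℝ) := by rw [real_inner_comm]; exact hsule e he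
        have h7 := heelt e _ he he0.1 h2
        have h8 := heelt e _ he hf0.1 h3
        rw [hopp, inner_neg_right] at h8
        have h9 : inner ℝ n (uu (eF F0)) * inner ℝ (uu e) (uu (eF F0)) < (1 : ℝ) := by
          generalize inner ℝ n (uu (eF F0)) = ν at *
          generalize inner ℝ (uu e) (uu (eF F0)) = β at *
          rcases le_total 0 β with h10 | h10
          · have := mul_le_mul_of_nonneg_right hν1 h10
            linarith
          · have := mul_le_mul_of_nonneg_right hν2 (neg_nonneg.2 h10)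
            have h11 : ν * β = -ν * -β := by ring
            linarith
        linarith
      by_cases h2 : inner ℝ n (uu (eF F0)) = (1 : ℝ)
      · refine ⟨{k (eF F0), none}, (hS _).2 (Or.inl rfl), fun x hx => ?_⟩
        cases x with
        | none => simp
        | some f =>
          rw [Finset.mem_insert]
          left
          have hx' : inner ℝ n (uu f.1) = (1 : ℝ) := hx
          have h3 : f.1 = eF F0 := by
            by_contra h4
            by_cases h5 : f.1 = fF F0
            · rw [h5, hopp, inner_neg_right] at hx'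
              linarith
            · exact hother f.1 f.2 h4 h5 hx'
          rw [hk _ he0.1]
          congr 1
          exact Subtype.ext h3
      · refine ⟨{k (fF F0), none}, (hS _).2 (Or.inr (Or.inl rfl)), fun x hx => ?_⟩
        cases x with
        | none => simp
        | some f =>
          rw [Finset.mem_insert]
          left
          have hx' : inner ℝ n (uu f.1) = (1 : ℝ) := hx
          have h3 : f.1 = fF F0 := by
            by_contra h4
            by_cases h5 : f.1 = eF F0
            · rw [h5] at hx'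
              exact h2 hx'
            · exact hother f.1 f.2 h5 h4 hx'
          rw [hk _ hf0.1]
          congr 1
          exact Subtype.ext h3
    · -- an ordinary facet
      obtain ⟨x, hxv, hxQ, rfl⟩ := hπs n
      have hye : ∀ e, B (V v) (X e) = 0 → B (Q + a • x) (X e) =
          -(-B (X e) (X o)) * (1 - inner ℝ (π x) (uu e)) := by
        intro e he
        have he' : B (X e) (V v) = 0 := by rw [B_comm]; exact he
        have h1 := hg e he
        have h2 : B (X e) (X o) ≠ 0 := by linarith
        rw [hxe x e hxv he, hxQ, Bal, Bml, B_comm Q, hBQ, he']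
        field_simp
        ring
      have hyv : B (Q + a • x) (V v) = 0 := by
        rw [Bal, Bml, B_comm Q, hvQ, hxv]; ring
      have hyo : B (Q + a • x) (X o) = -a ^ 2 := by
        have h1 := hBQ (Q + a • x)
        rw [hyv, Bal, Bml, hQQ, hxQ] at h1
        linarith
      obtain ⟨al, hal, hal2, hsum⟩ := h.rV v (Q + a • x) hyv (fun e he => by
        rw [hye e he]
        have h1 := hg e he
        have h2 := hn1 (k e)
        rw [huk e he] at h2
        nlinarith)
      rw [hsum, Bsum] at hyo
      obtain ⟨F, hF⟩ : ∃ F, al F * B (N F) (X o) ≠ 0 := by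
        by_contra hcon
        push Not at hcon
        rw [Finset.sum_eq_zero (fun F _ => hcon F)] at hyo
        have : 0 < a ^ 2 := by positivity
        linarith
      have hF1 : al F ≠ 0 := left_ne_zero_of_mul hF
      have hFv := hal2 F hF1
      have hFne : F ≠ F0 := by
        rintro rfl
        exact right_ne_zero_of_mul hF hF0o
      refine ⟨sF F, (hS _).2 (Or.inr (Or.inr ⟨F, (hT F).2 ⟨hFv, hFne⟩, rfl⟩)), fun y hy => ?_⟩
      cases y with
      | none => exact absurd hy hstar
      | some f =>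
        have hy' : inner ℝ (π x) (uu f.1) = (1 : ℝ) := hy
        have h1 := hye f.1 f.2
        rw [hy', hsum, Bsum, sub_self, mul_zero] at h1
        have h2 := (Finset.sum_eq_zero_iff_of_nonpos (fun F _ =>
          mul_nonpos_of_nonneg_of_nonpos (hal F) (h.nx F f.1))).1 h1 F (Finset.mem_univ F)
        have h3 : B (N F) (X f.1) = 0 := (mul_eq_zero.1 h2).resolve_left hF1
        have h4 := ((hef F hFv).2 f.1).1 ⟨f.2, h3⟩
        show some f ∈ ({k (eF F), k (fF F)} : Finset _)
        rw [Finset.mem_insert, Finset.mem_singleton, hk _ (heF F hFv).1, hk _ (hfF F hFv).1,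
          Option.some_inj, Option.some_inj, Subtype.ext_iff, Subtype.ext_iff]
        exact h4
  -- the sum
  have hθ : ∀ i j : Option {e : ε // B (V v) (X e) = 0}, i ≠ j →
      Real.arccos ((inner ℝ (∑ x ∈ ({i, j} : Finset _), u x)
        (∑ x ∈ ({i, j} : Finset _), u x) - 2) / 2) = Real.arccos (inner ℝ (u i) (u j)) := by
    intro i j hij
    rw [Finset.sum_pair hij, inner_add_left, inner_add_right, inner_add_right, hunit, hunit,
      real_inner_comm (u i) (u j)]
    congr 1
    ring
  have hθ' : ∀ i j : Option {e : ε // B (V v) (X e) = 0}, i ≠ j →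
      ∀ s : Finset (Option {e : ε // B (V v) (X e) = 0}), (∀ x, x ∈ s ↔ x = i ∨ x = j) →
      Real.arccos ((inner ℝ (∑ x ∈ s, u x) (∑ x ∈ s, u x) - 2) / 2) =
        Real.arccos (inner ℝ (u i) (u j)) := by
    intro i j hij s hs
    have h1 : s = ({i, j} : Finset _) := by
      ext x
      rw [hs x, Finset.mem_insert, Finset.mem_singleton]
    rw [h1]
    exact hθ i j hij
  have hmain := TLsum hTL hPhi u S hunit c1
    (fun s hs => by
      obtain ⟨i, j, hij, hs', hrest⟩ := c2 s hs
      refine ⟨i, j, hij, ?_, hrest⟩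
      rw [hs']
      ext x
      simp only [Finset.mem_insert, Finset.mem_singleton])
    c3
    (fun s => Real.arccos ((inner ℝ (∑ x ∈ s, u x) (∑ x ∈ s, u x) - 2) / 2))
    (fun s _ i j hij hs => hθ' i j hij s (fun x => by
      rw [hs]; simp only [Finset.mem_insert, Finset.mem_singleton]))
  have hni1 : ({k (eF F0), none} : Finset (Option {e : ε // B (V v) (X e) = 0})) ∉
      insert {k (fF F0), none} (T.image sF) := by
    intro hmem
    rw [Finset.mem_insert, Finset.mem_image] at hmem
    rcases hmem with h1 | ⟨F, hFT, h1⟩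
    · have h2 : k (eF F0) ∈ ({k (fF F0), none} : Finset _) := by rw [← h1]; simp
      rw [Finset.mem_insert, Finset.mem_singleton] at h2
      rcases h2 with h2 | h2
      · exact hef0 (hkinj _ _ he0.1 hf0.1 h2)
      · exact hkn _ he0.1 h2
    · have hF := (hT F).1 hFT
      have h2 : none ∈ ({k (eF F), k (fF F)} : Finset _) := by
        rw [show ({k (eF F), k (fF F)} : Finset _) = sF F from rfl, h1]; simp
      rw [Finset.mem_insert, Finset.mem_singleton] at h2
      rcases h2 with h2 | h2
      · exact hkn _ (heF F hF.1).1 h2.symm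
      · exact hkn _ (hfF F hF.1).1 h2.symm
  have hni2 : ({k (fF F0), none} : Finset (Option {e : ε // B (V v) (X e) = 0})) ∉
      T.image sF := by
    intro hmem
    rw [Finset.mem_image] at hmem
    obtain ⟨F, hFT, h1⟩ := hmem
    have hF := (hT F).1 hFT
    have h2 : none ∈ ({k (eF F), k (fF F)} : Finset _) := by
      rw [show ({k (eF F), k (fF F)} : Finset _) = sF F from rfl, h1]; simp
    rw [Finset.mem_insert, Finset.mem_singleton] at h2
    rcases h2 with h2 | h2
    · exact hkn _ (heF F hF.1).1 h2.symm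
    · exact hkn _ (hfF F hF.1).1 h2.symm
  have hinj : ∀ F ∈ T, ∀ G ∈ T, sF F = sF G → F = G := by
    intro F hFT G hGT hFG
    have hF := (hT F).1 hFT
    have hG := (hT G).1 hGT
    by_contra hne
    have h1 : k (eF F) ∈ ({k (eF G), k (fF G)} : Finset _) := by
      rw [show ({k (eF G), k (fF G)} : Finset _) = sF G from rfl, ← hFG]
      show k (eF F) ∈ ({k (eF F), k (fF F)} : Finset _)
      simp
    have h2 : k (fF F) ∈ ({k (eF G), k (fF G)} : Finset _) := by
      rw [show ({k (eF G), k (fF G)} : Finset _) = sF G from rfl, ← hFG]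
      show k (fF F) ∈ ({k (eF F), k (fF F)} : Finset _)
      simp
    have h3 : ∀ e, B (V v) (X e) = 0 → k e ∈ ({k (eF G), k (fF G)} : Finset _) →
        B (N G) (X e) = 0 := by
      intro e he hm
      rw [Finset.mem_insert, Finset.mem_singleton] at hm
      rcases hm with hm | hm
      · rw [hkinj _ _ he (heF G hG.1).1 hm]
        exact (heF G hG.1).2
      · rw [hkinj _ _ he (hfF G hG.1).1 hm]
        exact (hfF G hG.1).2
    obtain ⟨c, hc0, hcc⟩ := hpair F G (eF F) hne (heF F hF.1).2 (h3 _ (heF F hF.1).1 h1)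
    obtain ⟨c', hc0', hcc'⟩ := hpair F G (fF F) hne (hfF F hF.1).2 (h3 _ (hfF F hF.1).1 h2)
    have h4 : B (c • X (eF F)) (X (eF F)) = B (c' • X (fF F)) (X (eF F)) := by
      rw [← hcc, ← hcc']
    rw [Bml, Bml, h.nX] at h4
    have h5 := h.xx (fF F) (eF F) (hef F hF.1).1.symm
    nlinarith
  show ∑ F ∈ Finset.univ.filter (fun F => B (V v) (N F) = 0),
    Real.arctan (B (V v) (X o) / B (N F) (X o)) = Real.pi / 2
  rw [show S = insert {k (eF F0), none} (insert {k (fF F0), none} (T.image sF)) from rfl,
    Finset.sum_insert hni1, Finset.sum_insert hni2, Finset.sum_image hinj] at hmain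
  have h1 : ∀ e, B (V v) (X e) = 0 → B (N F0) (X e) = 0 →
      Real.arccos ((inner ℝ (∑ x ∈ ({k e, none} : Finset _), u x)
        (∑ x ∈ ({k e, none} : Finset _), u x) - 2) / 2) = Real.pi / 2 := by
    intro e he heN
    rw [hθ _ _ (hkn e he), huk e he, hu0]
    have h2 : inner ℝ (uu e) us = (0 : ℝ) := by
      rw [real_inner_comm, hsu e he, heN]; ring
    rw [h2, Real.arccos_zero]
  have h2 : ∀ F ∈ T, Real.arccos ((inner ℝ (∑ x ∈ sF F, u x) (∑ x ∈ sF F, u x) - 2) / 2) =
      2 * Real.arctan (B (V v) (X o) / B (N F) (X o)) := by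
    intro F hFT
    have hF := (hT F).1 hFT
    have h3 := heF F hF.1
    have h4 := hfF F hF.1
    have h5 := hθ (k (eF F)) (k (fF F))
      (fun h => (hef F hF.1).1 (hkinj _ _ h3.1 h4.1 h))
    rw [show sF F = ({k (eF F), k (fF F)} : Finset _) from rfl, h5, huk _ h3.1, huk _ h4.1,
      hc F hF.1]
    have h6 := arccos_half a (-B (N F) (X o)) ha0 (hb F hF.1 hF.2)
    rw [neg_sq] at h6
    rw [h6, hvo', div_neg, neg_div]
  rw [h1 _ he0.1 he0.2, h1 _ hf0.1 hf0.2, Finset.sum_congr rfl h2, ← Finset.mul_sum] at hmain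
  have h3 : ∑ F ∈ Finset.univ.filter (fun F => B (V v) (N F) = 0),
      Real.arctan (B (V v) (X o) / B (N F) (X o)) =
      ∑ F ∈ T, Real.arctan (B (V v) (X o) / B (N F) (X o)) := by
    symm
    apply Finset.sum_subset
    · intro F hF
      rw [hT] at hF
      simp [hF.1]
    · intro F hF hFT
      have h4 : F = F0 := by
        by_contra h5
        exact hFT ((hT F).2 ⟨(Finset.mem_filter.1 hF).2, h5⟩)
      rw [h4, hF0o, div_zero, Real.arctan_zero]
  rw [h3]
  linarith

end Pool.Agent.H47.K8b
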